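import Mathlib

set_option autoImplicit false

namespace Pool.Agent.H.MP_bbfbdc_al

/-- The four generators. -/
inductive Gen
  | a | b | c | d
  deriving DecidableEq, Fintype

/-- The action on vertices of the binary tree (`false` is 0, `true` is 1). -/
def act : Gen → List Bool → List Bool
  | _, [] => []
  | .a, false :: w => true :: w
  | .a, true :: w => false :: w
  | .b, false :: w => false :: act .a w
  | .b, true :: w => true :: act .c w
  | .c, false :: w => false :: act .a w
  | .c, true :: w => true :: act .d w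
  | .d, false :: w => false :: w
  | .d, true :: w => true :: act .b w

theorem act_act (s : Gen) (w : List Bool) : act s (act s w) = w := by
  induction w generalizing s with
  | nil => cases s <;> rfl
  | cons x w ih => cases s <;> cases x <;> simp [act, ih]

/-- A generator as a permutation of the vertices. -/
def gen (s : Gen) : Equiv.Perm (List Bool) := ⟨act s, act s, act_act s, act_act s⟩

/-- The first Grigorchuk group. -/
def Grig : Subgroup (Equiv.Perm (List Bool)) := Subgroup.closure (Set.range gen)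

/-- Word length with respect to `a, b, c, d`. -/
noncomputable def wordLength (g : Equiv.Perm (List Bool)) : ℕ :=
  sInf {n | ∃ l : List (Equiv.Perm (List Bool)), l.length = n ∧
    (∀ x ∈ l, x ∈ Set.range gen ∨ x⁻¹ ∈ Set.range gen) ∧ l.prod = g}

/-- Growth function. -/
noncomputable def ball (n : ℕ) : ℕ := {g | g ∈ Grig ∧ wordLength g ≤ n}.ncard

/-- Spherical growth function. -/
noncomputable def sphere (n : ℕ) : ℕ := {g | g ∈ Grig ∧ wordLength g = n}.ncard

/-- The order on growth functions. -/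
def Prec (f h : ℕ → ℕ) : Prop := ∃ C : ℕ, 1 ≤ C ∧ ∀ n : ℕ, 1 ≤ n → f n ≤ h (C * n)

abbrev PP := Equiv.Perm (List Bool)

lemma gen_sq (s : Gen) : gen s * gen s = 1 := Equiv.ext (act_act s)
lemma gen_inv (s : Gen) : (gen s)⁻¹ = gen s := rfl

def wd (u : List Gen) : PP := (u.map gen).prod

lemma wd_nil : wd [] = 1 := rfl
lemma wd_cons (s : Gen) (u : List Gen) : wd (s :: u) = gen s * wd u := by simp [wd]
lemma wd_append (u v : List Gen) : wd (u ++ v) = wd u * wd v := by simp [wd]
lemma wd_app (s : Gen) (u : List Gen) (w : List Bool) : wd (s :: u) w = act s (wd u w) := by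
  rw [wd_cons]; rfl
lemma wd_rev (u : List Gen) : wd u.reverse = (wd u)⁻¹ := by
  induction u with
  | nil => simp [wd_nil]
  | cons s u ih =>
    rw [List.reverse_cons, wd_append, ih, wd_cons, wd_cons, wd_nil, mul_one, mul_inv_rev, gen_inv]

lemma mem_iff (g : PP) : g ∈ Grig ↔ ∃ u, wd u = g := by
  constructor
  · intro hg
    induction hg using Subgroup.closure_induction with
    | mem x hx => obtain ⟨s, rfl⟩ := hx; exact ⟨[s], by rw [wd_cons, wd_nil, mul_one]⟩
    | one => exact ⟨[], rfl⟩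
    | mul x y _ _ hx hy =>
      obtain ⟨u, rfl⟩ := hx
      obtain ⟨v, rfl⟩ := hy
      exact ⟨u ++ v, wd_append _ _⟩
    | inv x _ hx => obtain ⟨u, rfl⟩ := hx; exact ⟨u.reverse, wd_rev u⟩
  · rintro ⟨u, rfl⟩
    induction u with
    | nil => exact Grig.one_mem
    | cons s u ih => rw [wd_cons]; exact Grig.mul_mem (Subgroup.subset_closure ⟨s, rfl⟩) ih

lemma wd_mem (u : List Gen) : wd u ∈ Grig := (mem_iff _).2 ⟨u, rfl⟩

lemma len_eq (g : PP) : wordLength g = sInf {n | ∃ u : List Gen, u.length = n ∧ wd u = g} := by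
  unfold wordLength
  congr 1
  ext n
  constructor
  · rintro ⟨l, rfl, hl, rfl⟩
    induction l with
    | nil => exact ⟨[], rfl, rfl⟩
    | cons x l ih =>
      obtain ⟨u, hu, e⟩ := ih fun y hy => hl y (by simp [hy])
      have : ∃ s, gen s = x := by
        rcases hl x (by simp) with h | ⟨s, h⟩
        · exact h
        · exact ⟨s, by rw [← gen_inv, h, inv_inv]⟩
      obtain ⟨s, rfl⟩ := this
      exact ⟨s :: u, by simp [hu], by rw [wd_cons, e, List.prod_cons]⟩
  · rintro ⟨u, rfl, rfl⟩
    refine ⟨u.map gen, by simp, fun x hx => Or.inl ?_, rfl⟩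
    obtain ⟨s, -, rfl⟩ := List.mem_map.1 hx
    exact ⟨s, rfl⟩

lemma len_le (u : List Gen) : wordLength (wd u) ≤ u.length := by
  rw [len_eq]; exact Nat.sInf_le ⟨u, rfl, rfl⟩

lemma len_spec {g : PP} (hg : g ∈ Grig) : ∃ u : List Gen, u.length = wordLength g ∧ wd u = g := by
  obtain ⟨u, hu⟩ := (mem_iff g).1 hg
  rw [len_eq]
  exact Nat.sInf_mem (s := {n | ∃ u : List Gen, u.length = n ∧ wd u = g}) ⟨_, u, rfl, hu⟩

lemma len_mul {g h : PP} (hg : g ∈ Grig) (hh : h ∈ Grig) :
    wordLength (g * h) ≤ wordLength g + wordLength h := by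
  obtain ⟨u, hu, rfl⟩ := len_spec hg
  obtain ⟨v, hv, rfl⟩ := len_spec hh
  have := len_le (u ++ v)
  rw [wd_append, List.length_append] at this
  omega

lemma len_inv {g : PP} (hg : g ∈ Grig) : wordLength g⁻¹ ≤ wordLength g := by
  obtain ⟨u, hu, rfl⟩ := len_spec hg
  have := len_le u.reverse
  rw [wd_rev, List.length_reverse] at this
  omega

def B (n : ℕ) : Set PP := {g | g ∈ Grig ∧ wordLength g ≤ n}
def S (n : ℕ) : Set PP := {g | g ∈ Grig ∧ wordLength g = n}

lemma B_fin (n : ℕ) : (B n).Finite := by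
  refine ((List.finite_length_le Gen n).image wd).subset ?_
  rintro g ⟨hg, hn⟩
  obtain ⟨u, hu, e⟩ := len_spec hg
  exact ⟨u, by show u.length ≤ n; omega, e⟩

lemma S_fin (n : ℕ) : (S n).Finite := (B_fin n).subset fun _ h => ⟨h.1, h.2.le⟩

lemma ball_mono {n m : ℕ} (h : n ≤ m) : ball n ≤ ball m :=
  Set.ncard_le_ncard (fun _ hg => ⟨hg.1, hg.2.trans h⟩) (B_fin m)

/-! ### the dihedral group generated by `a` and `d` -/

def D : Set PP := {x | ∃ i : ℕ, x = (gen .a * gen .d) ^ i ∨ x = gen .d * (gen .a * gen .d) ^ i}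

lemma ad4 : (gen .a * gen .d) ^ 4 = 1 := by
  ext1 w
  show act .a (act .d (act .a (act .d (act .a (act .d (act .a (act .d w))))))) = w
  rcases w with _ | ⟨_ | _, w⟩ <;> simp [act, act_act]

lemma D_fin : D.Finite := by
  have h : IsOfFinOrder (gen .a * gen .d) := isOfFinOrder_iff_pow_eq_one.2 ⟨4, by norm_num, ad4⟩
  refine (h.finite_powers.union (h.finite_powers.image (gen .d * ·))).subset ?_
  rintro x ⟨i, rfl | rfl⟩
  · exact Or.inl ⟨i, rfl⟩
  · exact Or.inr ⟨_, ⟨i, rfl⟩, rfl⟩

lemma D_d {x : PP} (hx : x ∈ D) : gen .d * x ∈ D := by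
  obtain ⟨i, rfl | rfl⟩ := hx
  · exact ⟨i, Or.inr rfl⟩
  · exact ⟨i, Or.inl (by rw [← mul_assoc, gen_sq, one_mul])⟩

lemma D_a {x : PP} (hx : x ∈ D) : gen .a * x ∈ D := by
  obtain ⟨i, rfl | rfl⟩ := hx
  · refine ⟨3 + i, Or.inr ?_⟩
    rw [pow_add, ← mul_assoc]
    congr 1
    have h1 : (gen .a * gen .d) * (gen .a * gen .d) ^ 3 = 1 := by rw [← pow_succ', ad4]
    rw [mul_assoc] at h1
    rw [← gen_inv]
    exact inv_eq_of_mul_eq_one_right h1
  · exact ⟨i + 1, Or.inl (by rw [pow_succ', mul_assoc])⟩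

/-- Lysenok lift -/
lemma lift (u : List Gen) : ∃ v : List Gen, v.length ≤ 3 * u.length ∧ ∃ δ ∈ D,
    (∀ w, wd v (true :: w) = true :: wd u w) ∧ ∀ w, wd v (false :: w) = false :: δ w := by
  induction u with
  | nil => exact ⟨[], le_rfl, 1, ⟨0, Or.inl rfl⟩, fun _ => rfl, fun _ => rfl⟩
  | cons s u ih =>
    obtain ⟨v, hv, δ, hδ, h1, h2⟩ := ih
    cases s with
    | a =>
      refine ⟨.a :: .c :: .a :: v, by simp; omega, gen .d * δ, D_d hδ, fun w => ?_, fun w => ?_⟩
      · simp only [wd_app, h1, act]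
      · simp only [wd_app, h2, act]; rfl
    | b =>
      refine ⟨.d :: v, by simp; omega, δ, hδ, fun w => ?_, fun w => ?_⟩
      · simp only [wd_app, h1, act]
      · simp only [wd_app, h2, act]
    | c =>
      refine ⟨.b :: v, by simp; omega, gen .a * δ, D_a hδ, fun w => ?_, fun w => ?_⟩
      · simp only [wd_app, h1, act]
      · simp only [wd_app, h2, act]; rfl
    | d =>
      refine ⟨.c :: v, by simp; omega, gen .a * δ, D_a hδ, fun w => ?_, fun w => ?_⟩
      · simp only [wd_app, h1, act]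
      · simp only [wd_app, h2, act]; rfl

lemma wd_length (u : List Gen) (w : List Bool) : (wd u w).length = w.length := by
  have : ∀ (w : List Bool) (s : Gen), (act s w).length = w.length := by
    intro w
    induction w with
    | nil => intro s; cases s <;> rfl
    | cons x w ih => intro s; cases s <;> cases x <;> simp [act, ih]
  induction u with
  | nil => rfl
  | cons s u ih => rw [wd_app, this, ih]

lemma deep (n : ℕ) : ∃ u : List Gen, ∀ w,
    wd u (List.replicate n true ++ w) = List.replicate n true ++ act .a w := by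
  induction n with
  | zero => exact ⟨[.a], fun w => by rw [wd_app]; rfl⟩
  | succ n ih =>
    obtain ⟨u', hu'⟩ := ih
    obtain ⟨u, -, -, -, hu, -⟩ := lift u'
    exact ⟨u, fun w => by rw [List.replicate_succ, List.cons_append, hu, hu']; rfl⟩

lemma G_inf : (Grig : Set PP).Infinite := by
  choose u hu using deep
  refine Set.infinite_of_injective_forall_mem (f := fun n => wd (u n))
    (Function.Injective.of_lt_imp_ne fun n m hnm h1 => ?_) (fun n => wd_mem _)
  obtain ⟨k, rfl⟩ := Nat.exists_eq_add_of_lt hnm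
  have h2 := hu n (List.replicate (k + 1) true)
  have h3 := hu (n + k + 1) []
  rw [h1, ← List.replicate_add, ← add_assoc] at h2
  rw [List.append_nil, h2, show act .a [] = [] from rfl, List.append_nil, add_assoc,
    List.replicate_add n (k + 1), List.append_cancel_left_eq, List.replicate_succ, act] at h3
  simp at h3

/-- discrete intermediate value property along a word -/
lemma cross (u : List Gen) {x : PP} (hx : x ∈ Grig) {R : ℕ} (h1 : wordLength x ≤ R)
    (h2 : R ≤ wordLength (x * wd u)) :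
    ∃ t ≤ u.length, wordLength (x * wd (u.take t)) = R := by
  induction u generalizing x with
  | nil => exact ⟨0, le_rfl, by simp only [List.take_nil, wd_nil, mul_one] at h2 ⊢; omega⟩
  | cons s u ih =>
    rcases h1.eq_or_lt with h | h
    · exact ⟨0, Nat.zero_le _, by simpa [wd_nil] using h⟩
    · have hs : gen s ∈ Grig := Subgroup.subset_closure ⟨s, rfl⟩
      have h3 := len_mul hx hs
      have h4 := len_le [s]
      rw [wd_cons, wd_nil, mul_one, List.length_singleton] at h4
      obtain ⟨t, ht, e⟩ := ih (Grig.mul_mem hx hs) (by omega) (by rwa [wd_cons, ← mul_assoc] at h2)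
      exact ⟨t + 1, by simpa using ht, by rw [List.take_succ_cons, wd_cons, ← mul_assoc, e]⟩

lemma len_surj (n : ℕ) : ∃ g ∈ Grig, wordLength g = n := by
  obtain ⟨g, hg, h⟩ := G_inf.exists_notMem_finite (B_fin n)
  obtain ⟨u, rfl⟩ := (mem_iff g).1 hg
  have h0 : wordLength 1 ≤ n := (len_le []).trans (Nat.zero_le _)
  obtain ⟨t, -, e⟩ := cross u Grig.one_mem h0 (by
    rw [one_mul]
    by_contra hc
    exact h ⟨hg, by omega⟩)
  exact ⟨_, Grig.mul_mem Grig.one_mem (wd_mem _), e⟩

lemma ball_ge (n : ℕ) : n + 1 ≤ ball n := by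
  choose g hg e using len_surj
  have := Set.ncard_le_ncard_of_injOn (s := Set.Iic n) (t := B n) g
    (fun k hk => ⟨hg k, (e k).le.trans hk⟩) (fun k _ l _ h => by rw [← e k, h, e l]) (B_fin n)
  show _ ≤ (B n).ncard
  simpa using this

lemma ball_le_sphere {m R : ℕ} (h : m ≤ R) : ball m ≤ (2 * m + 1) * sphere R := by
  obtain ⟨g, hg, e⟩ := len_surj (R + m)
  obtain ⟨u, hu, rfl⟩ := len_spec hg
  have key : ∀ x ∈ B m, ∃ i ∈ Set.Iic (2 * m), x * wd (u.take (R - m + i)) ∈ S R := by
    rintro x ⟨hx, hm⟩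
    have h1 := len_mul (Grig.inv_mem hx) (Grig.mul_mem hx hg)
    rw [inv_mul_cancel_left] at h1
    have h2 := len_inv hx
    obtain ⟨t, ht, e'⟩ := cross u hx (hm.trans h) (by omega)
    have h3 := len_mul hx (wd_mem (u.take t))
    have h4 := len_le (u.take t)
    rw [List.length_take] at h4
    refine ⟨t - (R - m), Set.mem_Iic.2 (by omega), ?_⟩
    rw [show R - m + (t - (R - m)) = t by omega]
    exact ⟨Grig.mul_mem hx (wd_mem _), e'⟩
  choose! i hi1 hi2 using key
  have := Set.ncard_le_ncard_of_injOn (s := B m) (t := Set.Iic (2 * m) ×ˢ S R)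
    (fun x => (i x, x * wd (u.take (R - m + i x)))) (fun x hx => ⟨hi1 x hx, hi2 x hx⟩)
    (fun x _ y _ hxy => by
      obtain ⟨e1, e2⟩ := Prod.mk.inj hxy
      rw [e1] at e2
      exact mul_right_cancel e2) ((Set.finite_Iic _).prod (S_fin R))
  rw [Set.ncard_prod] at this
  show (B m).ncard ≤ _ * (S R).ncard
  simpa using this

lemma ball_sq {n : ℕ} (hn : 1 ≤ n) : ball n * ball n ≤ ball (8 * n) * (D.ncard * D.ncard) := by
  have key : ∀ g ∈ B n, ∃ v : List Gen, v.length ≤ 3 * n ∧ ∃ δ ∈ D,
      (∀ w, wd v (true :: w) = true :: g w) ∧ ∀ w, wd v (false :: w) = false :: δ w := by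
    rintro g ⟨hg, h⟩
    obtain ⟨u, hu, rfl⟩ := len_spec hg
    obtain ⟨v, hv, H⟩ := lift u
    exact ⟨v, by omega, H⟩
  choose! v hv δ hδ h1 h2 using key
  have := Set.ncard_le_ncard_of_injOn (s := B n ×ˢ B n) (t := B (8 * n) ×ˢ (D ×ˢ D))
    (fun p => (wd (v p.1 ++ .a :: (v p.2 ++ [.a])), δ p.1, δ p.2))
    (fun p hp => ⟨⟨wd_mem _, (len_le _).trans (by
      have := hv _ hp.1
      have := hv _ hp.2
      simp; omega)⟩, hδ _ hp.1, hδ _ hp.2⟩)
    (by
      rintro ⟨g, h⟩ ⟨hg, hh⟩ ⟨g', h'⟩ ⟨hg', hh'⟩ hxy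
      simp only [Prod.mk.injEq] at hxy hg hh hg' hh' ⊢
      obtain ⟨e1, e2, e3⟩ := hxy
      have t1 : ∀ g ∈ B n, ∀ h ∈ B n, ∀ w, wd (v g ++ .a :: (v h ++ [.a])) (true :: w) =
          true :: g (δ h w) := by
        intro g hg h hh w
        rw [wd_append, Equiv.Perm.mul_apply, wd_app, wd_append, Equiv.Perm.mul_apply, wd_app]
        show wd (v g) (act .a (wd (v h) (false :: w))) = _
        rw [h2 h hh, act, h1 g hg]
      have t2 : ∀ g ∈ B n, ∀ h ∈ B n, ∀ w, wd (v g ++ .a :: (v h ++ [.a])) (false :: w) =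
          false :: δ g (h w) := by
        intro g hg h hh w
        rw [wd_append, Equiv.Perm.mul_apply, wd_app, wd_append, Equiv.Perm.mul_apply, wd_app]
        show wd (v g) (act .a (wd (v h) (true :: w))) = _
        rw [h1 h hh, act, h2 g hg]
      constructor
      · have : g * δ h = g' * δ h := by
          ext1 w
          have := t1 g hg h hh w
          rw [e1, t1 g' hg' h' hh', ← e3] at this
          exact (List.cons.inj this).2.symm
        exact mul_right_cancel this
      · have : δ g * h = δ g * h' := by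
          ext1 w
          have := t2 g hg h hh w
          rw [e1, t2 g' hg' h' hh', ← e2] at this
          exact (List.cons.inj this).2.symm
        exact mul_left_cancel this)
    ((B_fin _).prod (D_fin.prod D_fin))
  rwa [Set.ncard_prod, Set.ncard_prod, Set.ncard_prod] at this

/-- The spherical growth function of the first Grigorchuk group is equivalent to its growth
function. -/
theorem sph : Prec sphere ball ∧ Prec ball sphere := by
  refine ⟨⟨1, le_rfl, fun n _ => ?_⟩, ?_⟩
  · rw [one_mul]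
    exact Set.ncard_le_ncard (fun _ h => ⟨h.1, h.2.le⟩) (B_fin n)
  · set k := D.ncard * D.ncard with hk
    have main : ∀ n, 128 * k ^ 3 + 1 ≤ n → ball n ≤ sphere (64 * n) := by
      intro n hn
      have h1 := ball_sq (n := n) (by omega)
      have h2 := ball_sq (n := 8 * n) (by omega)
      rw [← mul_assoc 8 8 n] at h2
      have h3 := ball_le_sphere (le_refl (8 * 8 * n))
      have h4 := ball_ge n
      rw [← hk] at h1 h2
      have h5 : ball n * (n + 1) ^ 3 ≤ ball n ^ 4 := by
        rw [show ball n ^ 4 = ball n * ball n ^ 3 by ring]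
        exact Nat.mul_le_mul_left _ (Nat.pow_le_pow_left h4 3)
      have h6 : ball n ^ 4 ≤ ball (8 * 8 * n) * k ^ 3 := by
        calc ball n ^ 4 = (ball n * ball n) * (ball n * ball n) := by ring
          _ ≤ (ball (8 * n) * k) * (ball (8 * n) * k) := Nat.mul_le_mul h1 h1
          _ = (ball (8 * n) * ball (8 * n)) * k ^ 2 := by ring
          _ ≤ (ball (8 * 8 * n) * k) * k ^ 2 := Nat.mul_le_mul_right _ h2
          _ = _ := by ring
      have h7 : (2 * (8 * 8 * n) + 1) * k ^ 3 ≤ (n + 1) ^ 3 := by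
        calc (2 * (8 * 8 * n) + 1) * k ^ 3 ≤ (128 * (n + 1)) * k ^ 3 :=
              Nat.mul_le_mul_right _ (by omega)
          _ = (n + 1) * (128 * k ^ 3) := by ring
          _ ≤ (n + 1) * ((n + 1) * (n + 1)) := Nat.mul_le_mul_left _ (by nlinarith)
          _ = _ := by ring
      have h8 : ball n * (n + 1) ^ 3 ≤ sphere (8 * 8 * n) * (n + 1) ^ 3 := by
        calc ball n * (n + 1) ^ 3 ≤ ball (8 * 8 * n) * k ^ 3 := h5.trans h6
          _ ≤ ((2 * (8 * 8 * n) + 1) * sphere (8 * 8 * n)) * k ^ 3 := Nat.mul_le_mul_right _ h3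
          _ = sphere (8 * 8 * n) * ((2 * (8 * 8 * n) + 1) * k ^ 3) := by ring
          _ ≤ _ := Nat.mul_le_mul_left _ h7
      exact Nat.le_of_mul_le_mul_right h8 (by positivity)
    refine ⟨64 * (128 * k ^ 3 + 1), by omega, fun n hn => ?_⟩
    have h1 : n ≤ (128 * k ^ 3 + 1) * n := Nat.le_mul_of_pos_left _ (by omega)
    have h2 : 128 * k ^ 3 + 1 ≤ (128 * k ^ 3 + 1) * n := Nat.le_mul_of_pos_right _ hn
    rw [mul_assoc]
    exact (ball_mono h1).trans (main _ h2)

end Pool.Agent.H.MP_bbfbdc_al
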